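import Pool.Agent.H85.LK.Targets

/-! Module `FK` of the board `lk_modules`: Faber-Krahn for the min-max definition. -/

set_option autoImplicit false

open MeasureTheory Metric Set

namespace Pool.Agent.H90.LK

open Pool.Agent.H85.LK

theorem fk (hFKL : T_FKL) (hENL : T_ENL) : T_FK := by
  intro N n r c Ω hN hn hr hΩ hvol hc
  obtain ⟨V, hV, hv⟩ := hc
  have hfr : 0 < Module.finrank ℝ V := by omega
  haveI : Module.Finite ℝ V := Module.finite_of_finrank_pos hfr
  obtain ⟨⟨v, hvV⟩, hv0⟩ := Module.finrank_pos_iff_exists_ne_zero.mp hfr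
  have hne : v ≠ 0 := by
    intro h
    apply hv0
    ext1
    exact h
  obtain ⟨hsm, hcs, hts, hle⟩ := hv v hvV
  have hcont : Continuous v := hsm.continuous
  obtain ⟨x₀, hx₀⟩ : ∃ x, v x ≠ 0 := by
    by_contra h
    push Not at h
    exact hne (funext h)
  have hpos : 0 < ∫ x, v x ^ 2 := by
    refine Continuous.integral_pos_of_hasCompactSupport_nonneg_nonzero (hcont.pow 2) ?_
      (fun x => sq_nonneg (v x)) (x := x₀) (pow_ne_zero 2 hx₀)
    exact hcs.comp_left (g := fun y : ℝ => y ^ 2) (by simp)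
  have hsub : Function.support v ⊆ Ω := (subset_tsupport v).trans hts
  have hAm : MeasurableSet (Function.support v) := hcont.isOpen_support.measurableSet
  have hAb : Bornology.IsBounded (Function.support v) :=
    hcs.isCompact.isBounded.subset (subset_tsupport v)
  have hAv : volume (Function.support v) ≤ volume (ball (0 : E N) r) :=
    (measure_mono hsub).trans hvol
  obtain ⟨M, hM⟩ := hcs.exists_bound_of_continuous hcont
  have hBd : Bd (Function.support v) v := by
    refine ⟨hcont.measurable, ⟨M, fun x => by simpa [Real.norm_eq_abs] using hM x⟩, fun x hx => ?_⟩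
    exact Function.notMem_support.mp hx
  rw [div_le_iff₀ (by positivity)]
  refine le_of_forall_lt fun K hK => ?_
  -- choose a larger K'
  obtain ⟨K', hKK', hK'⟩ := exists_between hK
  obtain ⟨s₀, hs₀, hF⟩ := hFKL N K' hN hK'
  have hs : 0 < s₀ * r ^ 2 := by positivity
  have h1 := hF r (s₀ * r ^ 2) (Function.support v) v hr hs le_rfl hAm hAb hAv hBd
  have h2 := hENL N (s₀ * r ^ 2) v hs hsm hcs
  have h3 : ((∫ x, v x ^ 2) - Qf N (s₀ * r ^ 2) v) / (s₀ * r ^ 2) ≤ ∫ x, ‖fderiv ℝ v x‖ ^ 2 := by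
    rw [div_le_iff₀ hs]
    linarith
  have h4 : K' / r ^ 2 * (∫ x, v x ^ 2) ≤ c * ∫ x, v x ^ 2 := h1.trans (h3.trans hle)
  have h5 : K' / r ^ 2 ≤ c := le_of_mul_le_mul_right h4 hpos
  rw [div_le_iff₀ (by positivity)] at h5
  exact lt_of_lt_of_le hKK' h5

end Pool.Agent.H90.LK
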