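import Pool.Agent.H85.LK.Targets

/-! Module `ONB` of the board `lk_modules`: orthonormal basis in `L^2`. -/

set_option autoImplicit false

open MeasureTheory Metric Set

namespace Pool.Agent.H90.LK

open Pool.Agent.H85.LK

theorem onb : T_ONB := by
  intro N n V hn hV hv
  subst hV
  haveI : Module.Finite ℝ V := Module.finite_of_finrank_pos hn
  have hint : ∀ f g : V, Integrable (fun x => (f : E N → ℝ) x * (g : E N → ℝ) x) := by
    intro f g
    refine Continuous.integrable_of_hasCompactSupport ((hv f f.2).1.mul (hv g g.2).1) ?_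
    exact (hv f f.2).2.mul_right
  let B : LinearMap.BilinForm ℝ V := LinearMap.mk₂ ℝ
    (fun f g => ∫ x, (f : E N → ℝ) x * (g : E N → ℝ) x)
    (fun f f' g => by
      rw [← integral_add (hint f g) (hint f' g)]
      refine integral_congr_ae (Filter.Eventually.of_forall fun x => ?_)
      simp [add_mul])
    (fun a f g => by
      rw [smul_eq_mul, ← integral_const_mul]
      refine integral_congr_ae (Filter.Eventually.of_forall fun x => ?_)
      simp [mul_assoc])
    (fun f g g' => by
      rw [← integral_add (hint f g) (hint f g')]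
      refine integral_congr_ae (Filter.Eventually.of_forall fun x => ?_)
      simp [mul_add])
    (fun a f g => by
      rw [smul_eq_mul, ← integral_const_mul]
      refine integral_congr_ae (Filter.Eventually.of_forall fun x => ?_)
      simp only [Submodule.coe_smul, Pi.smul_apply, smul_eq_mul]
      ring)
  have hBd : ∀ f g : V, B f g = ∫ x, (f : E N → ℝ) x * (g : E N → ℝ) x := fun f g => rfl
  have hsymm : LinearMap.IsSymm B := ⟨fun f g => by
    rw [RingHom.id_apply, hBd, hBd]
    refine integral_congr_ae (Filter.Eventually.of_forall fun x => ?_)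
    simp only
    ring⟩
  obtain ⟨b, hb⟩ := LinearMap.BilinForm.exists_orthogonal_basis hsymm
  have hpos : ∀ i, 0 < B (b i) (b i) := by
    intro i
    have hne : b i ≠ 0 := b.ne_zero i
    obtain ⟨x₀, hx₀⟩ : ∃ x, (b i : E N → ℝ) x ≠ 0 := by
      by_contra h
      push Not at h
      exact hne (by ext1; exact funext h)
    rw [hBd]
    refine Continuous.integral_pos_of_hasCompactSupport_nonneg_nonzero
      ((hv (b i) (b i).2).1.mul (hv (b i) (b i).2).1) ((hv (b i) (b i).2).2.mul_right)
      (fun x => mul_self_nonneg _) (x := x₀) (mul_ne_zero hx₀ hx₀)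
  refine ⟨fun i => (Real.sqrt (B (b i) (b i)))⁻¹ • (b i : E N → ℝ),
    fun i => V.smul_mem _ (b i).2, fun i j => ?_⟩
  have h1 : ∫ x, ((Real.sqrt (B (b i) (b i)))⁻¹ • (b i : E N → ℝ)) x *
      ((Real.sqrt (B (b j) (b j)))⁻¹ • (b j : E N → ℝ)) x =
      (Real.sqrt (B (b i) (b i)))⁻¹ * (Real.sqrt (B (b j) (b j)))⁻¹ * B (b i) (b j) := by
    rw [hBd (b i) (b j), ← integral_const_mul]
    refine integral_congr_ae (Filter.Eventually.of_forall fun x => ?_)
    simp only [Pi.smul_apply, smul_eq_mul]
    ring
  rw [h1]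
  split_ifs with hij
  · subst hij
    have h2 : Real.sqrt (B (b i) (b i)) * Real.sqrt (B (b i) (b i)) = B (b i) (b i) :=
      Real.mul_self_sqrt (hpos i).le
    have h3 : Real.sqrt (B (b i) (b i)) ≠ 0 := (Real.sqrt_pos.mpr (hpos i)).ne'
    rw [← mul_inv, h2]
    exact inv_mul_cancel₀ (hpos i).ne'
  · have h0 : B (b i) (b j) = 0 := hb hij
    rw [h0, mul_zero]

end Pool.Agent.H90.LK
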